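import Pool.Agent.H47.L.R_seed8.W45.Ch.Weighted
import Pool.Agent.H47.L.R_seed8.H484R2.Zeta
import Pool.Agent.H47.L.R_seed8.W401.Cheb.Defs

/-! Continuation of the Dedekind zeta function twisted by an even character of the norm. -/

set_option autoImplicit false
open Filter Topology NumberField NumberField.InfinitePlace NumberField.Units
open NumberField.Units.dirichletUnitTheorem Module nonZeroDivisors Ideal

namespace Pool.Agent.W45.Ch

open Pool.Agent.H484R2

variable (K : Type) [Field K] [NumberField K]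

/-- the norm is congruent modulo `M` on classes modulo `M` -/
lemma norm_congr (M : ℕ) (x y : 𝓞 K) :
    ((Algebra.norm ℤ ((M : ℤ) • y + x) : ℤ) : ZMod M) = ((Algebra.norm ℤ x : ℤ) : ZMod M) := by
  classical
  let b := RingOfIntegers.basis K
  have h : ∀ z : 𝓞 K, ((Algebra.norm ℤ z : ℤ) : ZMod M) =
      ((Algebra.leftMulMatrix b z).map (Int.castRingHom (ZMod M))).det := by
    intro z
    rw [Algebra.norm_eq_matrix_det b z]
    rw [← RingHom.mapMatrix_apply, ← RingHom.map_det]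
    rfl
  rw [h, h]
  congr 1
  rw [map_add, map_smul]
  ext i j
  rw [Matrix.map_apply, Matrix.map_apply, Matrix.add_apply, Matrix.smul_apply, map_add,
    smul_eq_mul, map_mul]
  simp

variable {q : ℕ} (χ : DirichletCharacter ℂ q)

/-- the weight -/
noncomputable def Wt (J : Ideal (𝓞 K)) (x : 𝓞 K) : ℂ :=
  χ (((Algebra.norm ℤ x / (absNorm J : ℤ) : ℤ)) : ZMod q)

lemma norm_Wt_le (J : Ideal (𝓞 K)) (x : 𝓞 K) : ‖Wt K χ J x‖ ≤ 1 :=
  DirichletCharacter.norm_le_one χ _

lemma dvd_norm (J : Ideal (𝓞 K)) {x : 𝓞 K} (hx : x ∈ J) :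
    (absNorm J : ℤ) ∣ Algebra.norm ℤ x := by
  have h1 : J ∣ span {x} := by
    rw [Ideal.dvd_iff_le, Ideal.span_singleton_le_iff_mem]
    exact hx
  have h2 : absNorm J ∣ absNorm (span {x}) := map_dvd absNorm h1
  rw [absNorm_span_singleton] at h2
  exact Int.natCast_dvd.mpr h2

lemma Wt_congr (J : Ideal (𝓞 K)) (hJ : J ≠ ⊥) {x y : 𝓞 K} (hx : x ∈ J) (hy : y ∈ J) :
    Wt K χ J (((q * absNorm J : ℕ) : ℤ) • y + x) = Wt K χ J x := by
  unfold Wt
  have hN : absNorm J ≠ 0 := by rwa [Ne, absNorm_eq_zero_iff]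
  have hN' : (absNorm J : ℤ) ≠ 0 := by exact_mod_cast hN
  have hz : (((q * absNorm J : ℕ) : ℤ) • y + x) ∈ J := by
    refine J.add_mem ?_ hx
    exact zsmul_mem hy _
  obtain ⟨u, hu⟩ := dvd_norm K J hz
  obtain ⟨v, hv⟩ := dvd_norm K J hx
  have h := norm_congr K (q * absNorm J) x y
  rw [hu, hv] at h ⊢
  rw [Int.mul_ediv_cancel_left _ hN', Int.mul_ediv_cancel_left _ hN']
  congr 1
  rw [ZMod.intCast_eq_intCast_iff] at h ⊢
  rw [Nat.cast_mul, mul_comm (q : ℤ)] at h
  exact Int.ModEq.mul_left_cancel' hN' h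

lemma Wt_ideal (hχ : χ (-1) = 1) (J : Ideal (𝓞 K)) (hJ : J ≠ ⊥) (I : Ideal (𝓞 K)) {x : 𝓞 K}
    (hx : I * J = span {x}) : Wt K χ J x = χ ((absNorm I : ℕ) : ZMod q) := by
  unfold Wt
  have hN : absNorm J ≠ 0 := by rwa [Ne, absNorm_eq_zero_iff]
  have hN' : (absNorm J : ℤ) ≠ 0 := by exact_mod_cast hN
  have h1 : absNorm I * absNorm J = (Algebra.norm ℤ x).natAbs := by
    rw [← absNorm_span_singleton, ← hx, map_mul]
  rcases Int.natAbs_eq (Algebra.norm ℤ x) with h | h
  · rw [h, ← h1, Nat.cast_mul, Int.mul_ediv_cancel _ hN', Int.cast_natCast]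
  · rw [h, ← h1, Nat.cast_mul, ← neg_mul, Int.mul_ediv_cancel _ hN', Int.cast_neg,
      Int.cast_natCast, neg_eq_neg_one_mul, map_mul, hχ, one_mul]

variable (J : Ideal (𝓞 K)) (hJ : J ≠ ⊥)

include hJ in
lemma hasSum_XJ {s : ℂ} (hs : 1 < s.re) :
    HasSum (fun x : XJ K J => Wt K χ J x.1 * Fw K (x.1 : K) s)
      (∑' a, Wt K χ J (xJ K J hJ a : 𝓞 K) * gJ K J hJ a s) := by
  classical
  have h := (summable_weighted (dataJ K J hJ) hs (fun a => Wt K χ J (xJ K J hJ a : 𝓞 K))
    (fun a => norm_Wt_le K χ J _)).hasSum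
  -- the map `a ↦ x_a` from nonzero `a`
  let e : {a : Idx K → ℤ // a ≠ 0} ≃ XJ K J :=
    { toFun := fun a => ⟨(xJ K J hJ a.1 : 𝓞 K), (xJ K J hJ a.1).2, by
        have := xK_ne_zero K J hJ a.2
        unfold xK at this
        exact RingOfIntegers.coe_ne_zero_iff.mp this⟩
      invFun := fun x => ⟨(bJ K J hJ).equivFun ⟨x.1, x.2.1⟩, by
        intro h0
        have := (LinearEquiv.map_eq_zero_iff _).mp h0
        exact x.2.2 (congrArg Subtype.val this)⟩
      left_inv := by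
        intro a
        apply Subtype.ext
        simp only [xJ]
        exact LinearEquiv.apply_symm_apply _ _
      right_inv := by
        intro x
        apply Subtype.ext
        simp only [xJ]
        rw [LinearEquiv.symm_apply_apply] }
  rw [← e.hasSum_iff]
  have h2 : HasSum ((fun a : Idx K → ℤ => Wt K χ J (xJ K J hJ a : 𝓞 K) * gJ K J hJ a s) ∘
      (Subtype.val : {a : Idx K → ℤ // a ≠ 0} → _))
      (∑' a, Wt K χ J (xJ K J hJ a : 𝓞 K) * gJ K J hJ a s) := by
    refine (Function.Injective.hasSum_iff Subtype.val_injective ?_).mpr h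
    intro a ha
    have : a = 0 := by
      by_contra h0
      exact ha ⟨⟨a, h0⟩, rfl⟩
    rw [this, gJ_zero, mul_zero]
  have hfun : (fun x : XJ K J => Wt K χ J x.1 * Fw K (x.1 : K) s) ∘ e =
      ((fun a : Idx K → ℤ => Wt K χ J (xJ K J hJ a : 𝓞 K) * gJ K J hJ a s) ∘
      (Subtype.val : {a : Idx K → ℤ // a ≠ 0} → _)) := by
    funext a
    simp only [Function.comp_apply]
    rw [gJ_ne K J hJ a.2]
    rfl
  rw [hfun]
  exact h2

/-- the sum over one ideal class -/
lemma hasSum_class (hχ : χ (-1) = 1) (C : ClassGroup (𝓞 K))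
    (hC : ClassGroup.mk0 ⟨J, mem_nonZeroDivisors_of_ne_zero hJ⟩ = C⁻¹) {s : ℂ} (hs : 1 < s.re) :
    HasSum (fun I : NZI K => open scoped Classical in
      if cls K I = C then χ ((absNorm I.1 : ℕ) : ZMod q) * (absNorm I.1 : ℂ) ^ (-s) else 0)
      ((absNorm J : ℂ) ^ s / (torsionOrder K : ℂ) *
        ∑' a, Wt K χ J (xJ K J hJ a : 𝓞 K) * gJ K J hJ a s) := by
  classical
  have h2 := (hasSum_XJ K χ J hJ hs).tsum_fiberwise (qI K J hJ)
  have hJ0 : (absNorm J : ℂ) ≠ 0 := by
    have : absNorm J ≠ 0 := by rwa [Ne, absNorm_eq_zero_iff]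
    exact_mod_cast this
  have hw : (torsionOrder K : ℂ) ≠ 0 := by exact_mod_cast torsionOrder_ne_zero K
  have h3 := h2.mul_left ((absNorm J : ℂ) ^ s / (torsionOrder K : ℂ))
  have hf : (fun I : NZI K => if cls K I = C then
        χ ((absNorm I.1 : ℕ) : ZMod q) * (absNorm I.1 : ℂ) ^ (-s) else 0) =
      fun I : NZI K => (absNorm J : ℂ) ^ s / (torsionOrder K : ℂ) *
        ∑' b : (qI K J hJ ⁻¹' {I} : Set (XJ K J)),
          Wt K χ J (b : XJ K J).1 * Fw K ((b : XJ K J).1 : K) s := by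
    funext I
    have h4 : ∑' b : (qI K J hJ ⁻¹' {I} : Set (XJ K J)),
          Wt K χ J (b : XJ K J).1 * Fw K ((b : XJ K J).1 : K) s =
        χ ((absNorm I.1 : ℕ) : ZMod q) *
        ∑' b : (qI K J hJ ⁻¹' {I} : Set (XJ K J)), Fw K ((b : XJ K J).1 : K) s := by
      rw [← tsum_mul_left]
      refine tsum_congr fun b => ?_
      have h5 : I.1 * J = span {(b : XJ K J).1} := (qI_eq_iff K J hJ _ I).mp b.2
      rw [Wt_ideal K χ hχ J hJ I.1 h5]
    rw [h4]
    split_ifs with hI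
    · rw [← principal_iff K J hJ C hC] at hI
      obtain ⟨x₀, hx₀⟩ := hI
      rw [tsum_fiber_pos K J hJ I x₀ hx₀]
      rw [Complex.cpow_neg (absNorm J : ℂ)]
      have hJs : (absNorm J : ℂ) ^ s ≠ 0 := by
        rw [Complex.cpow_def_of_ne_zero hJ0]
        exact Complex.exp_ne_zero _
      field_simp
    · rw [← principal_iff K J hJ C hC] at hI
      rw [tsum_fiber_neg K J hJ I hI, mul_zero, mul_zero]
  rw [hf]
  exact h3

/-- sum over all nonzero ideals -/
lemma hasSum_ideals (hχ : χ (-1) = 1) {s : ℂ} (hs : 1 < s.re) :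
    HasSum (fun I : NZI K => χ ((absNorm I.1 : ℕ) : ZMod q) * (absNorm I.1 : ℂ) ^ (-s))
      (∑ C : ClassGroup (𝓞 K), (absNorm (rep K C).1 : ℂ) ^ s / (torsionOrder K : ℂ) *
        ∑' a, Wt K χ (rep K C).1 (xJ K (rep K C).1 (rep K C).2 a : 𝓞 K) *
          gJ K (rep K C).1 (rep K C).2 a s) := by
  classical
  have h := hasSum_sum (s := (Finset.univ : Finset (ClassGroup (𝓞 K))))
    (fun C _ => hasSum_class K χ (rep K C).1 (rep K C).2 hχ C (rep_spec K C) hs)
  have hf : (fun I : NZI K => χ ((absNorm I.1 : ℕ) : ZMod q) * (absNorm I.1 : ℂ) ^ (-s)) =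
      fun I : NZI K => ∑ C : ClassGroup (𝓞 K), if cls K I = C then
        χ ((absNorm I.1 : ℕ) : ZMod q) * (absNorm I.1 : ℂ) ^ (-s) else 0 := by
    funext I
    rw [Finset.sum_ite_eq]
    simp
  rw [hf]
  exact h

lemma lseries_eq (hχ : χ (-1) = 1) {s : ℂ} (hs : 1 < s.re) :
    LSeries (fun n => χ n * (Nat.card {I : Ideal (𝓞 K) // Ideal.absNorm I = n} : ℂ)) s =
    ∑ C : ClassGroup (𝓞 K), (absNorm (rep K C).1 : ℂ) ^ s / (torsionOrder K : ℂ) *
        ∑' a, Wt K χ (rep K C).1 (xJ K (rep K C).1 (rep K C).2 a : 𝓞 K) *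
          gJ K (rep K C).1 (rep K C).2 a s := by
  have h := (hasSum_ideals K χ hχ hs).tsum_fiberwise (fun I : NZI K => absNorm I.1)
  rw [← h.tsum_eq, LSeries]
  refine tsum_congr fun n => ?_
  by_cases hn : n = 0
  · subst hn
    rw [LSeries.term_zero]
    have : ((fun I : NZI K => absNorm I.1) ⁻¹' {0} : Set (NZI K)) = ∅ := by
      ext I
      simp only [Set.mem_preimage, Set.mem_singleton_iff, Set.mem_empty_iff_false, iff_false]
      rw [absNorm_eq_zero_iff]
      exact I.2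
    rw [this]
    simp
  · rw [LSeries.term_of_ne_zero hn]
    have h1 : ∑' b : ((fun I : NZI K => absNorm I.1) ⁻¹' {n} : Set (NZI K)),
        χ ((absNorm (b : NZI K).1 : ℕ) : ZMod q) * (absNorm (b : NZI K).1 : ℂ) ^ (-s) =
        ∑' b : ((fun I : NZI K => absNorm I.1) ⁻¹' {n} : Set (NZI K)), χ (n : ZMod q) *
          (n : ℂ) ^ (-s) := by
      refine tsum_congr fun b => ?_
      have : absNorm (b : NZI K).1 = n := b.2
      rw [this]
    rw [h1]
    let e : {I : Ideal (𝓞 K) // absNorm I = n} ≃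
        ((fun I : NZI K => absNorm I.1) ⁻¹' {n} : Set (NZI K)) :=
      { toFun := fun I => ⟨⟨I.1, by
          rintro h0
          have := I.2
          rw [h0, absNorm_bot] at this
          exact hn this.symm⟩, I.2⟩
        invFun := fun I => ⟨I.1.1, I.2⟩
        left_inv := fun I => rfl
        right_inv := fun I => rfl }
    have hfin : Finite {I : Ideal (𝓞 K) // absNorm I = n} := by
      have := Ideal.finite_setOfPred_absNorm_eq (S := 𝓞 K) n
      exact this.to_subtype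
    have hfin2 : Finite ((fun I : NZI K => absNorm I.1) ⁻¹' {n} : Set (NZI K)) :=
      Finite.of_equiv _ e
    have : Fintype ((fun I : NZI K => absNorm I.1) ⁻¹' {n} : Set (NZI K)) := Fintype.ofFinite _
    rw [tsum_fintype, Finset.sum_const, Finset.card_univ, Nat.card_congr e,
      Nat.card_eq_fintype_card, nsmul_eq_mul, Complex.cpow_neg, div_eq_mul_inv]
    ring

end Pool.Agent.W45.Ch

namespace Pool.Agent.W45.ChCont

open Pool.Agent.H484R2 Pool.Agent.W45.Ch

/-- **CH-CONT** -/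
theorem main : Pool.Agent.W401.Cheb.TaskCont := by
  intro K _ _ q _ χ hχ t
  classical
  have hw : ∀ C : ClassGroup (𝓞 K), ∃ h : ℂ → ℂ, AnalyticAt ℂ h (1 + t * Complex.I) ∧
      ∀ᶠ z in 𝓝 ((1 : ℂ) + t * Complex.I), 1 < z.re → h z = (z - 1) *
        ∑' a, Wt K χ (rep K C).1 (xJ K (rep K C).1 (rep K C).2 a : 𝓞 K) *
          gJ K (rep K C).1 (rep K C).2 a z := by
    intro C
    have hN : absNorm (rep K C).1 ≠ 0 := by
      rw [Ne, absNorm_eq_zero_iff]
      exact (rep K C).2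
    have hM : NeZero (q * absNorm (rep K C).1) := ⟨mul_ne_zero (NeZero.ne q) hN⟩
    refine weighted_continuation (dataJ K (rep K C).1 (rep K C).2) (q * absNorm (rep K C).1)
      (fun a => Wt K χ (rep K C).1 (xJ K (rep K C).1 (rep K C).2 a : 𝓞 K))
      (fun a => norm_Wt_le K χ _ _) ?_ t
    intro a η
    have h1 : (xJ K (rep K C).1 (rep K C).2 ((((q * absNorm (rep K C).1 : ℕ) : ℤ)) • a +
        Cont.dig (q * absNorm (rep K C).1) η) : 𝓞 K) =
        (((q * absNorm (rep K C).1 : ℕ) : ℤ)) • (xJ K (rep K C).1 (rep K C).2 a : 𝓞 K) +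
        (xJ K (rep K C).1 (rep K C).2 (Cont.dig (q * absNorm (rep K C).1) η) : 𝓞 K) := by
      unfold xJ
      rw [map_add, map_smul]
      rfl
    rw [h1]
    exact Wt_congr K χ _ (rep K C).2 (xJ K (rep K C).1 (rep K C).2 _).2
      (xJ K (rep K C).1 (rep K C).2 a).2
  choose g hg1 hg2 using hw
  refine ⟨fun z => ∑ C : ClassGroup (𝓞 K),
    (absNorm (rep K C).1 : ℂ) ^ z / (torsionOrder K : ℂ) * g C z, ?_, ?_⟩
  · refine Finset.analyticAt_fun_sum _ fun C _ => ?_
    have hJ0 : (absNorm (rep K C).1 : ℂ) ≠ 0 := by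
      have : absNorm (rep K C).1 ≠ 0 := by
        rw [Ne, absNorm_eq_zero_iff]
        exact (rep K C).2
      exact_mod_cast this
    refine AnalyticAt.mul ?_ (hg1 C)
    refine AnalyticAt.div ?_ analyticAt_const ?_
    · have hd : Differentiable ℂ fun z : ℂ => (absNorm (rep K C).1 : ℂ) ^ z := by
        intro z
        exact DifferentiableAt.const_cpow differentiableAt_id (Or.inl hJ0)
      exact hd.analyticAt _
    · exact_mod_cast torsionOrder_ne_zero K
  · have h3 : ∀ᶠ z in 𝓝 ((1 : ℂ) + t * Complex.I), ∀ C : ClassGroup (𝓞 K),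
        1 < z.re → g C z = (z - 1) *
          ∑' a, Wt K χ (rep K C).1 (xJ K (rep K C).1 (rep K C).2 a : 𝓞 K) *
            gJ K (rep K C).1 (rep K C).2 a z :=
      Filter.eventually_all.mpr fun C => hg2 C
    filter_upwards [h3] with z hz hz1
    rw [lseries_eq K χ hχ hz1, Finset.mul_sum]
    refine Finset.sum_congr rfl fun C _ => ?_
    rw [hz C hz1]
    ring

end Pool.Agent.W45.ChCont
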